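import Pool.Agent.T2H75.CF.Fin
import Pool.Agent.T2H75.CF.CIM
import Pool.Agent.T2H75.CF.CII
import Pool.Agent.T2H75.CF.SLG
import Pool.Agent.T2H75.CF.FKP
import Pool.Agent.T2H75.CF.ALG1
import Pool.Agent.T2H75.CF.ALG2

/-!
# MP_11e9c7_an: the multiplier inclusion for critically fixed rational maps is false

There is a critically fixed rational map `f` of degree `d = 1033` with a fixed point whose multiplier
`μ` is not in the closed disc of centre `(d + 1) / 2` and radius `(d - 1) / 2`.

The map is `f(z) = z ^ 1025 * ∏_{j < 8} (1 - b_j z) / (z - b_j)`, the fixed point is `1`, and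
`μ ≈ 697.96 - 486.15 i`.  The numbers `b_j` and the free critical points `z_j` (and `1 / z_j`) solve
a system of 16 complex equations, whose solvability is proved by a Newton-Kantorovich theorem with
slopes; the numerical part is evaluated by the kernel in integer disc arithmetic.

Idea of the example: the fixed points of the unperturbed map `z ^ n` (two hubs `0`, `∞` joined by
parallel edges) have multipliers on the boundary of the disc.  Pendant critical points attached to
the hub `0` on the left of the fixed point `1` and to the hub `∞` on its right turn the multiplier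
(the curve that separates the two hubs becomes a logarithmic spiral); the rotation angle grows like
the logarithm of the number of pendants, so that `Re 1 / (μ - 1)` becomes too small.

The packages CIM, CII, SLG were formalised by helper70, FKP and ALG1 by helper74, ALG2 by helper93.
-/

set_option autoImplicit false

open Polynomial
open Pool.Agent.T2H75.CF

namespace Pool.Agent.Results.MP_11e9c7_an.Disproof

/-- `z ∈ ℂ` is a critical point of the rational map `P / Q` (`P`, `Q` coprime), computed in the chart
`1 / f` if `z` is a pole. -/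
def IsCritical (P Q : ℂ[X]) (z : ℂ) : Prop :=
  (Q.eval z ≠ 0 ∧ deriv (fun w => P.eval w / Q.eval w) z = 0) ∨
  (Q.eval z = 0 ∧ deriv (fun w => Q.eval w / P.eval w) z = 0)

/-- `P / Q` is a critically fixed rational map of degree `d` on the Riemann sphere: `P` and `Q` are
coprime, `max (deg P) (deg Q) = d`, every critical point `z ∈ ℂ` is a fixed point, and if `∞` is a
critical point, then it is a fixed point (`deg Q < d`, that is `deg Q < deg P`).  In the chart
`z = 1 / w` the map `P(z) / Q(z)` is `(P.reflect d)(w) / (Q.reflect d)(w)`, where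
`(P.reflect d)(w) = w ^ d * P(1 / w)`. -/
structure IsCriticallyFixed (P Q : ℂ[X]) (d : ℕ) : Prop where
  coprime : IsCoprime P Q
  deg : max P.natDegree Q.natDegree = d
  fin : ∀ z, IsCritical P Q z → Q.eval z ≠ 0 ∧ P.eval z / Q.eval z = z
  inf : IsCritical (P.reflect d) (Q.reflect d) 0 → Q.natDegree < d

theorem deriv_quot (P Q : ℂ[X]) (z : ℂ) (h : Q.eval z ≠ 0) :
    deriv (fun w => P.eval w / Q.eval w) z = (wr P Q).eval z / (Q.eval z) ^ 2 := by
  have h1 := (P.hasDerivAt z).div (Q.hasDerivAt z) h
  have h2 := h1.deriv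
  rw [show (fun w => P.eval w / Q.eval w) = ((fun x => P.eval x) / fun x => Q.eval x : ℂ → ℂ) from rfl]
  rw [h2]
  simp [wr]

theorem wr_swap (P Q : ℂ[X]) (z : ℂ) : (wr Q P).eval z = -(wr P Q).eval z := by
  simp [wr]
  ring

/-- **Q1 is answered negatively.** -/
theorem result : ∃ P Q : ℂ[X], IsCriticallyFixed P Q 1033 ∧ ∃ p : ℂ,
    Q.eval p ≠ 0 ∧ P.eval p / Q.eval p = p ∧
    deriv (fun w => P.eval w / Q.eval w) p ≠ 0 ∧
    deriv (fun w => P.eval w / Q.eval w) p ≠ 1 ∧
    ((1033 : ℝ) - 1) / 2 < ‖deriv (fun w => P.eval w / Q.eval w) p - ((1033 : ℂ) + 1) / 2‖ := by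
  have hC := pCIM
  have hI := pCII
  obtain ⟨P, Q, hcf, h0, h1, h2, w, hw, hre, hineq⟩ :=
    counterexample hC hI (pSLG hC hI) pFKP (pALG2 pALG1)
  have hd : deriv (fun w => P.eval w / Q.eval w) 1 = 1 + w := by
    rw [deriv_quot P Q 1 h2, hw]
  have hcop : ∀ z, ¬ (P.eval z = 0 ∧ Q.eval z = 0) := by
    rintro z ⟨a, b⟩
    obtain ⟨u, v, huv⟩ := hcf.coprime
    have := congrArg (fun R => R.eval z) huv
    simp [a, b] at this
  refine ⟨P, Q, ⟨hcf.coprime, hcf.deg, ?_, ?_⟩, 1, h2, ?_, ?_, ?_, ?_⟩
  · intro z hz
    have hW : (wr P Q).eval z = 0 := by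
      rcases hz with ⟨hq, hz⟩ | ⟨hq, hz⟩
      · rw [deriv_quot P Q z hq] at hz
        rcases div_eq_zero_iff.1 hz with h | h
        · exact h
        · exact absurd (pow_eq_zero_iff (by norm_num) |>.1 h) hq
      · have hp : P.eval z ≠ 0 := fun h => hcop z ⟨h, hq⟩
        rw [deriv_quot Q P z hp, wr_swap] at hz
        rcases div_eq_zero_iff.1 hz with h | h
        · exact neg_eq_zero.1 h
        · exact absurd (pow_eq_zero_iff (by norm_num) |>.1 h) hp
    have hfix := hcf.fin z hW
    have hq : Q.eval z ≠ 0 := by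
      intro h
      rw [h, mul_zero] at hfix
      exact hcop z ⟨hfix, h⟩
    refine ⟨hq, ?_⟩
    rw [hfix, mul_div_assoc, div_self hq, mul_one]
  · intro _
    rw [h0]
    norm_num
  · rw [h1, div_self h2]
  · rw [hd]
    intro h
    have := congrArg Complex.re h
    simp at this
    linarith
  · rw [hd]
    intro h
    have := congrArg Complex.re h
    simp at this
    linarith
  · rw [hd]
    have e : ‖(1 + w) - ((1033 : ℂ) + 1) / 2‖ ^ 2 = (w.re - 516) ^ 2 + w.im ^ 2 := by
      rw [← Complex.normSq_eq_norm_sq, Complex.normSq_apply]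
      have a1 : ((1 + w) - ((1033 : ℂ) + 1) / 2).re = w.re - 516 := by
        simp
        ring
      have a2 : ((1 + w) - ((1033 : ℂ) + 1) / 2).im = w.im := by
        simp
      rw [a1, a2]
      ring
    have h3 : (516 : ℝ) ^ 2 < ‖(1 + w) - ((1033 : ℂ) + 1) / 2‖ ^ 2 := by
      rw [e]
      nlinarith
    have h4 := lt_of_pow_lt_pow_left₀ 2 (norm_nonneg _) h3
    have h5 : ((1033 : ℝ) - 1) / 2 = 516 := by norm_num
    rw [h5]
    exact h4

end Pool.Agent.Results.MP_11e9c7_an.Disproof
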